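import Pool.Agent.Helper69.OT.Side

/-!
# Finite facts on coloured boxes (project OT, MP_409f7f_co)

A colouring of the eight corners of a box is coded by a number `s < 256`; bit `i` is `1` iff the
corner `i` is black.  `bondT` lists the colourings for which both colour classes are nonempty and
connected.
-/

set_option autoImplicit false

namespace Pool.Agent.Helper26.OT

open Pool.Agent.Helper17.UF Pool.Agent.Helper69.OT Relation

/-- The colours of the corners coded by `s` (bit `1`: black, `false`; bit `0`: white, `true`). -/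
def vch (s : Nat) : (Fin 3 → Bool) → Bool :=
  fun k => !(s.testBit ((k 0).toNat + 2 * (k 1).toNat + 4 * (k 2).toNat))

/-- Bit `s` is `1` iff `s` is in `1..254` and both colour classes of `s` are connected in the
graph of the cube. -/
def bondT : Nat :=
  56878044519073366173164214406234287736235864504698924668975805862456966512062

/-- Index of a corner. -/
def ci (k : Fin 3 → Bool) : Nat := (k 0).toNat + 2 * (k 1).toNat + 4 * (k 2).toNat

/-- The two ends of the edge `(d, t)`. -/
def ends : Dir → Dir → Nat × Nat
  | Dir.px, Dir.py => (7, 3) | Dir.px, Dir.ny => (1, 5)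
  | Dir.px, Dir.pz => (5, 7) | Dir.px, Dir.nz => (3, 1)
  | Dir.nx, Dir.py => (2, 6) | Dir.nx, Dir.ny => (4, 0)
  | Dir.nx, Dir.pz => (6, 4) | Dir.nx, Dir.nz => (0, 2)
  | Dir.py, Dir.px => (3, 7) | Dir.py, Dir.nx => (6, 2)
  | Dir.py, Dir.pz => (7, 6) | Dir.py, Dir.nz => (2, 3)
  | Dir.ny, Dir.px => (5, 1) | Dir.ny, Dir.nx => (0, 4)
  | Dir.ny, Dir.pz => (4, 5) | Dir.ny, Dir.nz => (1, 0)
  | Dir.pz, Dir.px => (7, 5) | Dir.pz, Dir.nx => (4, 6)
  | Dir.pz, Dir.py => (6, 7) | Dir.pz, Dir.ny => (5, 4)
  | Dir.nz, Dir.px => (1, 3) | Dir.nz, Dir.nx => (2, 0)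
  | Dir.nz, Dir.py => (3, 2) | Dir.nz, Dir.ny => (0, 1)
  | _, _ => (0, 0)

theorem ends_eq : ∀ d t : Dir, Dir.perp d t = true →
    ends d t = (ci (cor d t (Dir.cross d t)), ci (cor d t (Dir.cross d t).neg)) := by
  decide +kernel

/-- The edge `(d, t)` has ends of different colours. -/
def bich (s : Nat) (d t : Dir) : Bool :=
  Dir.perp d t && (s.testBit (ends d t).1 != s.testBit (ends d t).2)

theorem bich_iff (s : Nat) (d t : Dir) :
    bich s d t = true ↔ Dir.perp d t = true ∧ ecol (vch s) d t = none := by
  unfold bich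
  rw [Bool.and_eq_true]
  refine and_congr_right fun h => ?_
  rw [ends_eq d t h]
  unfold ecol vch ci
  simp only [bne_iff_ne, ne_eq]
  cases s.testBit _ <;> cases s.testBit _ <;> simp

/-- The six directions. -/
def dirs : List Dir := [Dir.px, Dir.nx, Dir.py, Dir.ny, Dir.pz, Dir.nz]

theorem mem_dirs : ∀ d : Dir, d ∈ dirs := by decide

/-- `d` is not the removed side `p`. -/
def alw (p : Option Dir) (d : Dir) : Bool := p != some d

/-- The edge `(d, t)` joins two sides of the curve, none of them removed. -/
def adj (s : Nat) (p : Option Dir) (d t : Dir) : Bool := alw p d && alw p t && bich s d t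

/-- The sides in or next to `L`. -/
def grow (s : Nat) (p : Option Dir) (L : List Dir) : List Dir :=
  dirs.filter fun t => L.contains t || L.any fun d => adj s p d t

/-- The sides on the curve that are not removed. -/
def cands (s : Nat) (p : Option Dir) : List Dir :=
  dirs.filter fun d => alw p d && dirs.any fun e => bich s d e

/-- Five rounds starting at `d`. -/
def reach (s : Nat) (p : Option Dir) (d : Dir) : List Dir :=
  grow s p (grow s p (grow s p (grow s p (grow s p [d]))))

/-- All sides on the curve are reached from the first one. -/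
def chk (s : Nat) (p : Option Dir) : Bool :=
  match cands s p with
  | [] => true
  | d0 :: l => (d0 :: l).all fun t => (reach s p d0).contains t

theorem chk_all : ((List.range 256).all fun s => !(bondT.testBit s) ||
    ((none :: dirs.map some).all fun p => chk s p)) = true := by
  decide +kernel

theorem face_all : ((List.range 256).all fun s => !(bondT.testBit s) ||
    (dirs.all fun d => ((dirs.filter fun t => bich s d t).length == 0) ||
      ((dirs.filter fun t => bich s d t).length == 2))) = true := by
  decide +kernel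

theorem ex_all : ((List.range 256).all fun s => !(bondT.testBit s) ||
    (dirs.any fun d => dirs.any fun t => bich s d t)) = true := by
  decide +kernel

/-- The curve on the sides in `q`. -/
def Rel (s : Nat) (q : Dir → Prop) (d t : Dir) : Prop :=
  q d ∧ q t ∧ Dir.perp d t = true ∧ ecol (vch s) d t = none

theorem grow_sound {s : Nat} {p : Option Dir} {q : Dir → Prop} (hq : ∀ d, alw p d = true → q d)
    {d0 : Dir} {L : List Dir} (hL : ∀ x ∈ L, EqvGen (Rel s q) d0 x) :
    ∀ t ∈ grow s p L, EqvGen (Rel s q) d0 t := by
  intro t ht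
  unfold grow at ht
  rw [List.mem_filter] at ht
  obtain ⟨-, ht⟩ := ht
  rw [Bool.or_eq_true] at ht
  rcases ht with ht | ht
  · exact hL t (by simpa using ht)
  · rw [List.any_eq_true] at ht
    obtain ⟨d, hd, had⟩ := ht
    unfold adj at had
    rw [Bool.and_eq_true, Bool.and_eq_true] at had
    obtain ⟨⟨h1, h2⟩, h3⟩ := had
    exact EqvGen.trans _ _ _ (hL d hd)
      (EqvGen.rel _ _ ⟨hq d h1, hq t h2, (bich_iff s d t).1 h3⟩)

theorem reach_sound {s : Nat} {p : Option Dir} {q : Dir → Prop} (hq : ∀ d, alw p d = true → q d)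
    (d0 : Dir) : ∀ t ∈ reach s p d0, EqvGen (Rel s q) d0 t := by
  unfold reach
  refine grow_sound hq (grow_sound hq (grow_sound hq (grow_sound hq (grow_sound hq ?_))))
  intro x hx
  rw [List.mem_singleton] at hx
  rw [hx]
  exact EqvGen.refl _

theorem chk_sound {s : Nat} {p : Option Dir} {q : Dir → Prop} (hc : chk s p = true)
    (hq : ∀ d, alw p d = true ↔ q d) :
    ∀ d t, q d → q t → (∃ e, Dir.perp d e = true ∧ ecol (vch s) d e = none) →
      (∃ e, Dir.perp t e = true ∧ ecol (vch s) t e = none) → EqvGen (Rel s q) d t := by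
  intro d t hd ht hde hte
  have hmem : ∀ x, q x → (∃ e, Dir.perp x e = true ∧ ecol (vch s) x e = none) →
      x ∈ cands s p := by
    intro x hx ⟨e, he⟩
    unfold cands
    rw [List.mem_filter, Bool.and_eq_true, List.any_eq_true]
    exact ⟨mem_dirs x, (hq x).2 hx, e, mem_dirs e, (bich_iff s x e).2 he⟩
  have h1 := hmem d hd hde
  have h2 := hmem t ht hte
  unfold chk at hc
  cases hcd : cands s p with
  | nil => rw [hcd] at h1; simp at h1
  | cons d0 l =>
    rw [hcd] at hc h1 h2
    simp only [List.all_eq_true] at hc
    have g1 := reach_sound (s := s) (fun d h => (hq d).1 h) d0 d (by simpa using hc d h1)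
    have g2 := reach_sound (s := s) (fun d h => (hq d).1 h) d0 t (by simpa using hc t h2)
    exact EqvGen.trans _ _ _ (EqvGen.symm _ _ g1) g2

theorem bond_chk {s : Nat} (hs : s < 256) (h : bondT.testBit s = true) (p : Option Dir) :
    chk s p = true := by
  have h0 := chk_all
  rw [List.all_eq_true] at h0
  have h1 := h0 s (List.mem_range.2 hs)
  rw [h, Bool.not_true, Bool.false_or, List.all_eq_true] at h1
  refine h1 p ?_
  cases p with
  | none => exact List.mem_cons_self
  | some d => exact List.mem_cons_of_mem _ (List.mem_map.2 ⟨d, mem_dirs d, rfl⟩)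

/-- Without a removed side, or with one removed side, the curve of a bond is connected. -/
theorem bond_conn {s : Nat} (hs : s < 256) (h : bondT.testBit s = true) (q : Dir → Prop)
    (hq : (∀ x, q x) ∨ ∃ p, ∀ x, q x ↔ x ≠ p) :
    ∀ d t, q d → q t → (∃ e, Dir.perp d e = true ∧ ecol (vch s) d e = none) →
      (∃ e, Dir.perp t e = true ∧ ecol (vch s) t e = none) →
      EqvGen (fun d s' => q d ∧ q s' ∧ Dir.perp d s' = true ∧ ecol (vch s) d s' = none) d t := by
  rcases hq with hq | ⟨p, hp⟩
  · exact chk_sound (bond_chk hs h none) (fun d => by simp [alw, hq d])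
  · refine chk_sound (bond_chk hs h (some p)) (fun d => ?_)
    rw [hp d]
    unfold alw
    rw [bne_iff_ne, ne_eq, Option.some.injEq]
    exact ne_comm

theorem card_filter (P : Dir → Bool) :
    (Finset.univ.filter fun t => P t = true).card = (dirs.filter P).length := by
  have h : (Finset.univ : Finset Dir) = dirs.toFinset := by decide
  have hn : dirs.Nodup := by decide
  rw [h, ← List.toFinset_card_of_nodup (hn.filter P)]
  congr 1
  ext t
  simp

/-- A side of a box meets the curve of a bond in no or in two edges. -/
theorem bond_face {s : Nat} (hs : s < 256) (h : bondT.testBit s = true) (d : Dir) :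
    (Finset.univ.filter fun t => Dir.perp d t = true ∧ ecol (vch s) d t = none).card = 0 ∨
    (Finset.univ.filter fun t => Dir.perp d t = true ∧ ecol (vch s) d t = none).card = 2 := by
  have h0 := face_all
  rw [List.all_eq_true] at h0
  have h1 := h0 s (List.mem_range.2 hs)
  rw [h, Bool.not_true, Bool.false_or, List.all_eq_true] at h1
  have h2 := h1 d (mem_dirs d)
  have e : (Finset.univ.filter fun t => Dir.perp d t = true ∧ ecol (vch s) d t = none) =
      Finset.univ.filter fun t => bich s d t = true := by
    ext t
    rw [Finset.mem_filter, Finset.mem_filter, bich_iff]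
  rw [e, card_filter (bich s d)]
  simpa using h2

/-- The two edges of a side that meet the curve of a bond. -/
theorem bond_face_two {s : Nat} (hs : s < 256) (h : bondT.testBit s = true) {d t : Dir}
    (ht : Dir.perp d t = true ∧ ecol (vch s) d t = none) :
    ∃ t', t' ≠ t ∧ ∀ x, (Dir.perp d x = true ∧ ecol (vch s) d x = none) ↔ x = t ∨ x = t' := by
  have hc := bond_face hs h d
  have hmem : t ∈ Finset.univ.filter
      fun t => Dir.perp d t = true ∧ ecol (vch s) d t = none := by
    rw [Finset.mem_filter]; exact ⟨Finset.mem_univ _, ht⟩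
  rcases hc with hc | hc
  · rw [Finset.card_eq_zero] at hc
    rw [hc] at hmem
    simp at hmem
  · obtain ⟨a, b, hab, he⟩ := Finset.card_eq_two.1 hc
    have hx : ∀ x, (Dir.perp d x = true ∧ ecol (vch s) d x = none) ↔ x = a ∨ x = b := by
      intro x
      have : x ∈ Finset.univ.filter
          (fun t => Dir.perp d t = true ∧ ecol (vch s) d t = none) ↔ x ∈ ({a, b} : Finset Dir) := by
        rw [he]
      simpa using this
    rcases (hx t).1 ht with rfl | rfl
    · exact ⟨b, hab.symm, hx⟩
    · exact ⟨a, hab, fun x => by rw [hx x, or_comm]⟩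

/-- The curve of a bond is not empty. -/
theorem exists_bond {s : Nat} (hs : s < 256) (h : bondT.testBit s = true) :
    ∃ d t, Dir.perp d t = true ∧ ecol (vch s) d t = none := by
  have h0 := ex_all
  rw [List.all_eq_true] at h0
  have h1 := h0 s (List.mem_range.2 hs)
  rw [h, Bool.not_true, Bool.false_or, List.any_eq_true] at h1
  obtain ⟨d, -, hd⟩ := h1
  rw [List.any_eq_true] at hd
  obtain ⟨t, -, ht⟩ := hd
  exact ⟨d, t, (bich_iff s d t).1 ht⟩

end Pool.Agent.Helper26.OT
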