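import Pool.Agent.Helper69.OT.Check
import Pool.Agent.Helper69.OT.Spec

/-!
# Soundness of the decision trees (project OT, MP_409f7f_co)
-/

set_option autoImplicit false

namespace Pool.Agent.Helper26.OTree

open Pool.Agent.Helper17.UF Pool.Agent.Helper69.OT

theorem tb_land (a b i : ℕ) : (Nat.land a b).testBit i = (a.testBit i && b.testBit i) :=
  Nat.testBit_and a b i

theorem tb_lor (a b i : ℕ) : (Nat.lor a b).testBit i = (a.testBit i || b.testBit i) :=
  Nat.testBit_or a b i

theorem tb_xor (a b i : ℕ) : (Nat.xor a b).testBit i = (a.testBit i ^^ b.testBit i) :=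
  Nat.testBit_xor a b i

theorem tb_shl (a b i : ℕ) :
    (Nat.shiftLeft a b).testBit i = (decide (i ≥ b) && a.testBit (i - b)) :=
  Nat.testBit_shiftLeft a

/-- Bits of a row are bits below its width. -/
theorem row_lt {tab w i x : ℕ} (h : (row tab w (2 ^ w - 1) i).testBit x = true) : x < w := by
  unfold row at h
  rw [tb_land, Bool.and_eq_true, Nat.testBit_two_pow_sub_one] at h
  simpa using h.2

/-- Bounded loop. -/
def lp (f : ℕ → Bool) (n : ℕ) : Bool :=
  Nat.rec (motive := fun _ => Bool) true (fun k ih => cond (f k) ih false) n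

theorem lp_spec {f : ℕ → Bool} : ∀ {n : ℕ}, lp f n = true → ∀ i < n, f i = true
  | 0, _, i, hi => absurd hi (Nat.not_lt_zero i)
  | n + 1, h, i, hi => by
    change cond (f n) (lp f n) false = true at h
    cases hf : f n with
    | false => rw [hf, cond_false] at h; exact absurd h (by decide)
    | true =>
      rw [hf, cond_true] at h
      rcases Nat.lt_succ_iff_lt_or_eq.1 hi with h1 | h1
      · exact lp_spec h i h1
      · rw [h1]; exact hf

theorem lp_intro {f : ℕ → Bool} : ∀ {n : ℕ}, (∀ i < n, f i = true) → lp f n = true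
  | 0, _ => rfl
  | n + 1, h => by
    change cond (f n) (lp f n) false = true
    rw [h n (Nat.lt_succ_self n), cond_true]
    exact lp_intro fun i hi => h i (Nat.lt_succ_of_lt hi)

/-- Fast test of a bit. -/
def tbit (r x : ℕ) : Bool := Nat.beq (Nat.land (Nat.shiftRight r x) 1) 1

theorem tbit_eq (r x : ℕ) : tbit r x = r.testBit x := by
  unfold tbit
  have h1 : Nat.land (Nat.shiftRight r x) 1 = r / 2 ^ x % 2 := by
    have : Nat.land (Nat.shiftRight r x) 1 = (r >>> x) &&& 1 := rfl
    rw [this, Nat.and_one_is_mod, Nat.shiftRight_eq_div_pow]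
  rw [h1, Nat.testBit_eq_decide_div_mod_eq, Bool.eq_iff_iff, decide_eq_true_iff]
  exact ⟨Nat.eq_of_beq_eq_true, fun h => by rw [h]; rfl⟩

section sound

variable {X : ℕ → ℕ} {Out : ℕ → Prop}

/-- Weaker patterns. -/
def Down (Out : ℕ → Prop) : Prop := ∀ r c q, r < 16 → c < 81 → Out (81 * r + c) →
  (row tDN 81 (2 ^ 81 - 1) (81 * r + c)).testBit q = true → Out (81 * r + q)

/-- Witnesses are sound. -/
def WSnd (X : ℕ → ℕ) (Out : ℕ → Prop) : Prop := ∀ w g0 g1 g2 g3 g4,
  okW w g0 g1 g2 g3 g4 = true → g0.testBit (X 0) = true → g1.testBit (X 1) = true →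
  g2.testBit (X 2) = true → g3.testBit (X 3) = true → g4.testBit (X 4) = true →
  tgtR w < 16 ∧ wC w 5 < 81 ∧ Out (81 * tgtR w + wC w 5)

theorem addV_sound (hdn : Down Out) {w V : ℕ} (hr : tgtR w < 16) (hc : wC w 5 < 81)
    (ho : Out (81 * tgtR w + wC w 5)) (hV : ∀ p, V.testBit p = true → Out p) :
    ∀ p, (addV w V).testBit p = true → Out p := by
  intro p hp
  unfold addV at hp
  rw [tb_lor, Bool.or_eq_true] at hp
  rcases hp with hp | hp
  · exact hV p hp
  · rw [tb_shl, Bool.and_eq_true, decide_eq_true_iff] at hp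
    obtain ⟨h1, h2⟩ := hp
    have h3 := hdn (tgtR w) (wC w 5) _ hr hc ho h2
    have h4 : 81 * tgtR w + (p - Nat.mul 81 (tgtR w)) = p := by
      have h5 : Nat.mul 81 (tgtR w) = 81 * tgtR w := rfl
      rw [h5] at h1 ⊢
      omega
    rw [h4] at h3
    exact h3

theorem run_sound (hw : WSnd X Out) (hdn : Down Out) {g0 g1 g2 g3 g4 : ℕ}
    (h0 : g0.testBit (X 0) = true) (h1 : g1.testBit (X 1) = true) (h2 : g2.testBit (X 2) = true)
    (h3 : g3.testBit (X 3) = true) (h4 : g4.testBit (X 4) = true) :
    ∀ (n P V : ℕ), (∀ p, V.testBit p = true → Out p) →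
      ∀ p, (run g0 g1 g2 g3 g4 n P V).testBit p = true → Out p
  | 0, _, _, hV, p, hp => hV p hp
  | n + 1, P, V, hV, p, hp => by
    rw [run] at hp
    cases hk : okW (Nat.land P 0xffffffffffffffff) g0 g1 g2 g3 g4 with
    | false =>
      rw [hk, cond_false, Nat.zero_testBit] at hp
      exact absurd hp (by decide)
    | true =>
      rw [hk, cond_true] at hp
      obtain ⟨a, b, c⟩ := hw _ _ _ _ _ _ hk h0 h1 h2 h3 h4
      exact run_sound hw hdn h0 h1 h2 h3 h4 n _ _ (addV_sound hdn a b c hV) p hp

theorem split_bit {g r x : ℕ} (h : g.testBit x = true) :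
    (Nat.land g r).testBit x = true ∨ (Nat.xor g (Nat.land g r)).testBit x = true := by
  rw [tb_xor, tb_land, h]
  cases r.testBit x <;> simp

theorem chk_sound (allow : ℕ) (hw : WSnd X Out) (hdn : Down Out) :
    ∀ (t : Tr) (g0 g1 g2 g3 g4 V : ℕ), g0.testBit (X 0) = true → g1.testBit (X 1) = true →
      g2.testBit (X 2) = true → g3.testBit (X 3) = true → g4.testBit (X 4) = true →
      (∀ p, V.testBit p = true → Out p) → chk allow t g0 g1 g2 g3 g4 V = true →
      ∃ x, allow.testBit x = true ∧ ∀ p, (rowI x).testBit p = true → Out p := by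
  intro t
  induction t with
  | L x P n =>
    intro g0 g1 g2 g3 g4 V h0 h1 h2 h3 h4 hV h
    unfold chk at h
    rw [Bool.and_eq_true] at h
    refine ⟨x, h.1, fun p hp => ?_⟩
    have he := Nat.eq_of_beq_eq_true h.2
    rw [← he, tb_land, Bool.and_eq_true] at hp
    exact run_sound hw hdn h0 h1 h2 h3 h4 n P V hV p hp.2
  | N i p P n a b iha ihb =>
    intro g0 g1 g2 g3 g4 V h0 h1 h2 h3 h4 hV h
    have hV' := run_sound hw hdn h0 h1 h2 h3 h4 n P V hV
    match i, h with
    | 0, h =>
      simp only [chk, Bool.and_eq_true] at h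
      rcases split_bit (r := rowC p) h0 with hb | hb
      · exact iha _ _ _ _ _ _ hb h1 h2 h3 h4 hV' h.1
      · exact ihb _ _ _ _ _ _ hb h1 h2 h3 h4 hV' h.2
    | 1, h =>
      simp only [chk, Bool.and_eq_true] at h
      rcases split_bit (r := rowC p) h1 with hb | hb
      · exact iha _ _ _ _ _ _ h0 hb h2 h3 h4 hV' h.1
      · exact ihb _ _ _ _ _ _ h0 hb h2 h3 h4 hV' h.2
    | 2, h =>
      simp only [chk, Bool.and_eq_true] at h
      rcases split_bit (r := rowC p) h2 with hb | hb
      · exact iha _ _ _ _ _ _ h0 h1 hb h3 h4 hV' h.1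
      · exact ihb _ _ _ _ _ _ h0 h1 hb h3 h4 hV' h.2
    | 3, h =>
      simp only [chk, Bool.and_eq_true] at h
      rcases split_bit (r := rowC p) h3 with hb | hb
      · exact iha _ _ _ _ _ _ h0 h1 h2 hb h4 hV' h.1
      · exact ihb _ _ _ _ _ _ h0 h1 h2 hb h4 hV' h.2
    | (k + 4), h =>
      simp only [chk, Bool.and_eq_true] at h
      rcases split_bit (r := rowC p) h4 with hb | hb
      · exact iha _ _ _ _ _ _ h0 h1 h2 h3 hb hV' h.1
      · exact ihb _ _ _ _ _ _ h0 h1 h2 h3 hb hV' h.2

end sound

/-- Children that must be present at the first brick of a branch. -/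
def kmask (x : ℕ) : ℕ := row tK 4 15 x

/-- Colour of the edge `j` of a ring word. -/
def colR (r j : ℕ) : Option Bool :=
  if r.testBit j = r.testBit ((j + 1) % 4) then some (!r.testBit j) else none

/-- Check of the images in the row `r` of the pattern `p`. -/
def loopA (p r : ℕ) (n : ℕ) : Bool :=
  Nat.rec (motive := fun _ => Bool) true
    (fun k ih => cond (tbit r k) (cond (tbit (rowI k) p) ih false) ih) n

theorem loopA_spec {p r : ℕ} : ∀ {n : ℕ}, loopA p r n = true →
    ∀ x < n, r.testBit x = true → (rowI x).testBit p = true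
  | 0, _, x, hx, _ => absurd hx (Nat.not_lt_zero x)
  | n + 1, h, x, hx, hr => by
    change cond (tbit r n) (cond (tbit (rowI n) p) (loopA p r n) false) (loopA p r n) = true at h
    rcases Nat.lt_succ_iff_lt_or_eq.1 hx with h1 | h1
    · refine loopA_spec (n := n) ?_ x h1 hr
      cases ha : tbit r n with
      | false => rw [ha, cond_false] at h; exact h
      | true =>
        rw [ha, cond_true] at h
        cases hb : tbit (rowI n) p with
        | false => rw [hb, cond_false] at h; exact absurd h (by decide)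
        | true => rw [hb, cond_true] at h; exact h
    · subst h1
      rw [tbit_eq, tbit_eq, hr, cond_true] at h
      cases hb : (rowI x).testBit p with
      | false => rw [hb, cond_false] at h; exact absurd h (by decide)
      | true => rfl

theorem tabA : lp (fun p => loopA p (rowC p) nIM) 1296 = true := by decide +kernel

theorem tabA2 : Nat.shiftRight tCOL (256 * 1296) = 0 := by decide +kernel

theorem rowC_zero {p : ℕ} (hp : 1296 ≤ p) : rowC p = 0 := by
  unfold rowC row
  have h : Nat.shiftRight tCOL (Nat.mul 256 p) = 0 := by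
    have h1 : Nat.mul 256 p = 256 * 1296 + (256 * p - 256 * 1296) := by
      show 256 * p = _
      omega
    rw [h1]
    have h2 : tCOL >>> (256 * 1296 + (256 * p - 256 * 1296)) =
        (tCOL >>> (256 * 1296)) >>> (256 * p - 256 * 1296) := Nat.shiftRight_add _ _ _
    have h3 : tCOL >>> (256 * 1296) = 0 := tabA2
    rw [h3, Nat.zero_shiftRight] at h2
    exact h2
  rw [h]
  exact Nat.zero_and _

/-- The two tables of the images agree. -/
theorem tab_a {x p : ℕ} (hx : x < nIM) (h : (rowC p).testBit x = true) :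
    p < 1296 ∧ (rowI x).testBit p = true := by
  have hp : p < 1296 := by
    by_contra hp
    rw [rowC_zero (not_lt.1 hp), Nat.zero_testBit] at h
    exact absurd h (by decide)
  exact ⟨hp, loopA_spec (lp_spec tabA p hp) x hx h⟩

/-- Row of the allowed results. -/
def rowAL (C : ℕ) : ℕ := row tAL 256 (2 ^ 256 - 1) C

theorem tabB1 : lp (fun C => Nat.beq (Nat.shiftRight (rowAL C) nIM) 0) 32 = true := by
  decide +kernel

theorem tabB2 : lp (fun C => lp (fun x => cond (tbit (rowAL C) x)
    (lp (fun j => cond (tbit (kmask x) j) (tbit C (adjE 5 j)) true) 4) true) nIM) 32 = true := by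
  decide +kernel

theorem tab_b {C x : ℕ} (hC : C < 32) (h : (row tAL 256 (2 ^ 256 - 1) C).testBit x = true) :
    x < nIM ∧ ∀ j < 4, (kmask x).testBit j = true → C.testBit (adjE 5 j) = true := by
  have hx : x < nIM := by
    by_contra hx
    have h1 := Nat.eq_of_beq_eq_true (lp_spec tabB1 C hC)
    have h2 : ((rowAL C) >>> nIM).testBit (x - nIM) = true := by
      rw [Nat.testBit_shiftRight, Nat.add_sub_cancel' (not_lt.1 hx)]
      exact h
    have h3 : (rowAL C) >>> nIM = 0 := h1
    rw [h3, Nat.zero_testBit] at h2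
    exact absurd h2 (by decide)
  refine ⟨hx, fun j hj hk => ?_⟩
  have h1 := lp_spec (lp_spec tabB2 C hC) x hx
  have h2 : tbit (rowAL C) x = true := by rw [tbit_eq]; exact h
  simp only [h2, cond_true] at h1
  have h3 := lp_spec h1 j hj
  have h4 : tbit (kmask x) j = true := by rw [tbit_eq]; exact hk
  simp only [h4, cond_true] at h3
  rw [← tbit_eq]
  exact h3

/-- The edge `j` of the side `s` may be closed by the image. -/
def okJ (C s j : ℕ) : Bool := cond (Nat.beq (adjE s j) 5) false (cond (tbit C (adjE s j)) false true)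

theorem tabC : lp (fun C => lp (fun s => cond (tbit C s) (lp (fun x => cond (tbit (rowG C s) x) true
    (cond (lp (fun j => cond (tbit (kmask x) j) (okJ C s j) true) 4) false true)) nIM) true) 5) 32 =
    true := by
  decide +kernel

theorem tab_c {C s x : ℕ} (hC : C < 32) (hs : s < 5) (hCs : C.testBit s = true) (hx : x < nIM)
    (h : ∀ j < 4, (kmask x).testBit j = true → adjE s j ≠ 5 ∧ C.testBit (adjE s j) = false) :
    (rowG C s).testBit x = true := by
  have h1 := lp_spec (lp_spec tabC C hC) s hs
  have h2 : tbit C s = true := by rw [tbit_eq]; exact hCs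
  simp only [h2, cond_true] at h1
  have h3 := lp_spec h1 x hx
  cases hg : tbit (rowG C s) x with
  | true => rw [← tbit_eq]; exact hg
  | false =>
    exfalso
    simp only [hg, cond_false] at h3
    have h4 : lp (fun j => cond (tbit (kmask x) j) (okJ C s j) true) 4 = true := by
      have hall : ∀ j < 4, (cond (tbit (kmask x) j) (okJ C s j) true) = true := by
        intro j hj
        cases hk : tbit (kmask x) j with
        | false => rfl
        | true =>
          rw [cond_true]
          rw [tbit_eq] at hk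
          obtain ⟨a, b⟩ := h j hj hk
          unfold okJ
          have a' : Nat.beq (adjE s j) 5 = false := by
            rw [← Bool.not_eq_true]; exact fun hh => a (Nat.eq_of_beq_eq_true hh)
          rw [a', cond_false, tbit_eq, b]
          rfl
      exact lp_intro hall
    rw [h4] at h3
    exact absurd h3 (by decide)

theorem tabD : lp (fun C => lp (fun s => cond (tbit C s) true (tbit (rowG C s) nIM)) 5) 32 =
    true := by
  decide +kernel

theorem tab_d {C s : ℕ} (hC : C < 32) (hs : s < 5) (hCs : C.testBit s = false) :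
    (rowG C s).testBit nIM = true := by
  have h1 := lp_spec (lp_spec tabD C hC) s hs
  have h2 : tbit C s = false := by rw [tbit_eq]; exact hCs
  simp only [h2, cond_false] at h1
  rw [← tbit_eq]
  exact h1

/-- Row of the weaker state words. -/
def rowD (r c : ℕ) : ℕ := row tDN 81 (2 ^ 81 - 1) (Nat.add (Nat.mul 81 r) c)

theorem tabE : lp (fun r => lp (fun c => lp (fun q => cond (tbit (rowD r c) q)
    (lp (fun j => cle (colR r j) (toSt (dg q j)) (toSt (dg c j))) 4) true) 81) 81) 16 = true := by
  decide +kernel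

theorem tab_e {r c q : ℕ} (hr : r < 16) (hc : c < 81)
    (h : (row tDN 81 (2 ^ 81 - 1) (81 * r + c)).testBit q = true) :
    q < 81 ∧ ∀ j < 4, cle (colR r j) (toSt (dg q j)) (toSt (dg c j)) = true := by
  have hq : q < 81 := row_lt h
  refine ⟨hq, fun j hj => ?_⟩
  have h1 := lp_spec (lp_spec (lp_spec tabE r hr) c hc) q hq
  have h2 : tbit (rowD r c) q = true := by rw [tbit_eq]; exact h
  simp only [h2, cond_true] at h1
  exact lp_spec h1 j hj

/-- Soundness of a decision tree for the set `C` of children. -/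
theorem chkC_sound {C : ℕ} (hC : C < 32) (t : Tr) (h : chkC C t = true) (X : ℕ → ℕ)
    (Out : ℕ → Prop)
    (hX : ∀ s < 5, if C.testBit s = true then X s < nIM ∧ (∀ j < 4, (kmask (X s)).testBit j = true →
      adjE s j ≠ 5 ∧ C.testBit (adjE s j) = false) else X s = nIM)
    (hw : ∀ w g0 g1 g2 g3 g4,
      okW w g0 g1 g2 g3 g4 = true → g0.testBit (X 0) = true → g1.testBit (X 1) = true →
      g2.testBit (X 2) = true → g3.testBit (X 3) = true → g4.testBit (X 4) = true →
      tgtR w < 16 ∧ wC w 5 < 81 ∧ Out (81 * tgtR w + wC w 5))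
    (hdn : ∀ r c q, r < 16 → c < 81 → Out (81 * r + c) →
      (row tDN 81 (2 ^ 81 - 1) (81 * r + c)).testBit q = true → Out (81 * r + q)) :
    ∃ x < nIM, (∀ j < 4, (kmask x).testBit j = true → C.testBit (adjE 5 j) = true) ∧
      ∀ p, (rowC p).testBit x = true → Out p := by
  have hg : ∀ s < 5, (rowG C s).testBit (X s) = true := by
    intro s hs
    have h1 := hX s hs
    cases hCs : C.testBit s with
    | true =>
      rw [if_pos hCs] at h1
      exact tab_c hC hs hCs h1.1 h1.2
    | false =>
      rw [if_neg (by rw [hCs]; decide)] at h1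
      rw [h1]
      exact tab_d hC hs hCs
  unfold chkC at h
  obtain ⟨x, hx, hO⟩ := chk_sound _ hw hdn t _ _ _ _ _ 0 (hg 0 (by omega)) (hg 1 (by omega))
    (hg 2 (by omega)) (hg 3 (by omega)) (hg 4 (by omega))
    (fun p hp => by rw [Nat.zero_testBit] at hp; exact absurd hp (by decide)) h
  obtain ⟨hxn, hk⟩ := tab_b hC hx
  exact ⟨x, hxn, hk, fun p hp => hO p (tab_a hxn hp).2⟩

end Pool.Agent.Helper26.OTree
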